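import Pool.Agent.Lib.H8.Wei

/-!
The totalizing jump never distributes over the meet of incomparable Weihrauch degrees.
-/

namespace Pool.Agent.Results.MP_1d3aa8_lc.No

open Pool.Agent.Lib.H8 Arith CList Wei

/-- The meet of two problems. -/
def meet (f g : Prob) : Prob := fun p =>
  {r | (f (ev p)).Nonempty ∧ (g (od p)).Nonempty ∧
    ((r 0 = 0 ∧ tl r ∈ f (ev p)) ∨ (r 0 = 1 ∧ tl r ∈ g (od p)))}

/-- The totalization. -/
def tot (g : Prob) : Prob := fun p => {r | (g p).Nonempty → r ∈ g p}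

/-- Weihrauch equivalence. -/
def Eqv (f g : Prob) : Prop := Red f g ∧ Red g f

/-- `j` has the largest degree among the totalizations of problems equivalent to `f`. -/
def IsTJ (f j : Prob) : Prop :=
  (∃ f', Eqv f' f ∧ Eqv j (tot f')) ∧ ∀ f', Eqv f' f → Red (tot f') j

def Cd (x : ℕ → ℕ) (c : ℕ) : Prop := ∃ s, (∀ t < s, x t = 0) ∧ x s ≠ 0 ∧ x (s + 1) = c

def hat (f : Prob) : Prob := fun x =>
  {r | ∃ c u, Cd x c ∧ Out c.unpair.1 x u ∧ (∀ q ∈ f u, ∃ r', Out c.unpair.2 (join x q) r') ∧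
    ∃ q ∈ f u, Out c.unpair.2 (join x q) r}

def mk (s c : ℕ) (p : ℕ → ℕ) (n : ℕ) : ℕ :=
  if n < s + 2 then (if n < s then 0 else if n = s then 1 else c) else p (n - (s + 2))

def sh (s : ℕ) (x : ℕ → ℕ) (n : ℕ) : ℕ := x (n + (s + 2))

def cons (a : ℕ) (q : ℕ → ℕ) (n : ℕ) : ℕ := if n = 0 then a else q (n - 1)

lemma tl_cons (a : ℕ) (q : ℕ → ℕ) : tl (cons a q) = q := funext fun n => by simp [tl, cons]

lemma sh_mk (s c : ℕ) (p : ℕ → ℕ) : sh s (mk s c p) = p := funext fun n => by simp [sh, mk]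

lemma cd_mk (s c : ℕ) (p : ℕ → ℕ) : Cd (mk s c p) c :=
  ⟨s, fun t ht => by simp [mk, ht, show t < s + 2 by omega], by simp [mk], by simp [mk]⟩

lemma Cd.uniq {x : ℕ → ℕ} {c c' : ℕ} : Cd x c → Cd x c' → c = c' := by
  rintro ⟨s, a, b, rfl⟩ ⟨s', a', b', rfl⟩
  rcases lt_trichotomy s s' with h | rfl | h
  · exact absurd (a' s h) b
  · rfl
  · exact absurd (a s' h) b'

lemma clt (k : ℕ) : ComputablePred fun n : ℕ => n < k :=
  (Primrec.nat_lt.comp Primrec.id (Primrec.const k)).computablePred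

lemma cm_mk (s c : ℕ) : Cm fun p q => q = mk s c p :=
  Cm.re (clt _) (cite (clt s) (Computable.const 0) (cite (ceq Computable.id (Computable.const s))
    (Computable.const 1) (Computable.const c)))
    (Primrec.nat_sub.comp Primrec.id (Primrec.const _)).to_comp

lemma cm_sh (s : ℕ) : Cm fun p q => q = sh s p :=
  Cm.ix (Primrec.nat_add.comp Primrec.id (Primrec.const _)).to_comp

lemma cm_cons (a : ℕ) : Cm fun p q => q = cons a p :=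
  Cm.re (ceq Computable.id (Computable.const 0)) (Computable.const a)
    (Primrec.nat_sub.comp Primrec.id (Primrec.const _)).to_comp

lemma cm_id : Cm fun p q => q = p := Cm.ix Computable.id

lemma cm_u {i j : ℕ → ℕ} (hi : Computable i) (hj : Computable j) :
    Cm fun z r => ∃ c, Cd (fun t => z (i t)) c ∧ Out (j c) z r := by
  have s := @Computable.snd
  have f := @Computable.fst
  have h : Op fun z (w : ℕ × ℕ) => ∃ s c v : ℕ, ((∀ t < s, 0 = z (i t)) ∧ v + 1 = z (i s)) ∧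
      c = z (i (s + 1)) ∧ ∃ k, Encodable.encode (pre z k, w.1, w.2) ∈ CeAlg.W (j c) :=
    Op.exd (Op.exd (Op.exd (((Op.ball (Op.val (hi.comp s) (Computable.const 0))
      (s.comp (f.comp f))).and (Op.val (hi.comp (s.comp (f.comp f))) (Computable.succ.comp s))).and
      ((Op.val (hi.comp (Computable.succ.comp (s.comp (f.comp f)))) (s.comp f)).and
        (Op.univ (hj.comp (s.comp f)) (f.comp (f.comp (f.comp f))) (s.comp (f.comp (f.comp f))))))))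
  refine ⟨_, h, ?_⟩
  rintro z r ⟨c, hc, o⟩ n y
  refine ⟨fun ⟨t, c', v, ⟨a1, a2⟩, a3, a4⟩ => ?_, fun e => ?_⟩
  · obtain rfl : c = c' := hc.uniq ⟨t, fun u hu => (a1 u hu).symm, by simp [← a2], a3.symm⟩
    exact (o n y).1 a4
  · obtain ⟨t, a1, a2, a3⟩ := hc
    obtain ⟨v, hv⟩ := Nat.exists_eq_succ_of_ne_zero a2
    exact ⟨t, c, v, ⟨fun u hu => (a1 u hu).symm, hv.symm⟩, a3.symm, (o n y).2 e⟩

lemma code {D D' : (ℕ → ℕ) → (ℕ → ℕ) → Prop} (h : Cm D) (h' : Cm D') :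
    ∃ c : ℕ, ∀ (f : Prob) (x u : ℕ → ℕ) (F : (ℕ → ℕ) → ℕ → ℕ), Cd x c → D x u →
      (∀ q ∈ f u, D' (join x q) (F q)) → hat f x = F '' f u := by
  obtain ⟨i, hi⟩ := h.idx
  obtain ⟨j, hj⟩ := h'.idx
  refine ⟨Nat.pair i j, fun f x u F a b c => Set.ext fun r => ⟨?_, ?_⟩⟩
  · rintro ⟨c', u', k1, k2, -, q, k3, k4⟩
    obtain rfl := a.uniq k1
    rw [Nat.unpair_pair] at k2 k4
    obtain rfl := (hi _ _ b).uniq k2
    exact ⟨q, k3, (hj _ _ (c q k3)).uniq k4⟩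
  · rintro ⟨q, k, rfl⟩
    exact ⟨_, u, a, by simpa using hi _ _ b, fun q hq => ⟨F q, by simpa using hj _ _ (c q hq)⟩,
      q, k, by simpa using hj _ _ (c q k)⟩

lemma hat_le (f : Prob) : Red (hat f) f := by
  refine red (cm_u Computable.id u1) (cm_u dbl_c u2) ?_
  rintro x ⟨r, c, u, k1, k2, k3, q, k4, -⟩
  refine ⟨u, ⟨c, k1, k2⟩, ⟨q, k4⟩, fun q hq => ?_⟩
  obtain ⟨r', hr⟩ := k3 q hq
  exact ⟨r', ⟨c, by simpa [join] using k1, hr⟩, c, u, k1, k2, k3, q, hq, hr⟩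

lemma le_hat (f : Prob) : Red f (hat f) := by
  obtain ⟨c, hc⟩ := code (cm_sh 0) Cm.od
  refine red (cm_mk 0 c) Cm.od fun p hp => ?_
  have := hc f _ p id (cd_mk 0 c p) (sh_mk ..).symm (by simp)
  exact ⟨_, rfl, by simpa [this], fun q hq => ⟨q, by simp, by simpa [this] using hq⟩⟩

lemma tot_ne (g : Prob) (p : ℕ → ℕ) : (tot g p).Nonempty := by
  by_cases h : (g p).Nonempty
  · exact ⟨h.some, fun _ => h.some_mem⟩
  · exact ⟨p, fun k => absurd k h⟩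

lemma meet_mono {f g f' g' : Prob} : Red f f' → Red g g' → Red (meet f g) (meet f' g') := by
  rintro ⟨i, j, a⟩ ⟨i', j', b⟩
  have t : Cm fun z q => q = tl (od z) := Cm.tl.pre Cm.od
  refine red (((Cm.out i).pre Cm.ev).join ((Cm.out i').pre Cm.od))
    (Cm.case (k := 1) (((Cm.out j).pre ((Cm.ev.pre Cm.ev).jn t)).comp (cm_cons 0))
      (((Cm.out j').pre ((Cm.od.pre Cm.ev).jn t)).comp (cm_cons 1)) Nat.zero_ne_one) ?_
  rintro p ⟨-, h1, h2, -⟩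
  obtain ⟨x, a1, a2, a3⟩ := a _ h1
  obtain ⟨y, b1, b2, b3⟩ := b _ h2
  refine ⟨join x y, ⟨x, y, a1, b1, rfl⟩, ⟨cons 0 a2.some, by simpa, by simpa,
    Or.inl ⟨rfl, by simpa [tl_cons] using a2.some_mem⟩⟩, ?_⟩
  rintro q ⟨-, -, ⟨k1, k2⟩ | ⟨k1, k2⟩⟩
  · obtain ⟨r, r1, r2⟩ := a3 _ (by simpa using k2)
    exact ⟨cons 0 r, Or.inl ⟨k1, r, by simpa using r1, rfl⟩, h1, h2,
      Or.inl ⟨rfl, by rwa [tl_cons]⟩⟩
  · obtain ⟨r, r1, r2⟩ := b3 _ (by simpa using k2)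
    exact ⟨cons 1 r, Or.inr ⟨k1, r, by simpa using r1, rfl⟩, h1, h2,
      Or.inr ⟨rfl, by rwa [tl_cons]⟩⟩

lemma cm_inc : Cm fun o q => q = cons (o 1 + 1) (tl (tl o)) := by
  have s := @Computable.snd
  have f := @Computable.fst
  have z := ceq (f (α := ℕ) (β := ℕ)) (Computable.const 0)
  have h : Op fun o (w : ℕ × ℕ) => (w.1 = 0 ∧ ∃ v, v = o 1 ∧ w.2 = v + 1) ∨
      (¬ w.1 = 0 ∧ w.2 = o (w.1 + 1)) :=
    ((Op.cp z).and (Op.exd ((Op.val (Computable.const 1) s).and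
      (Op.cp (ceq (s.comp f) (Computable.succ.comp s)))))).or
      ((Op.cp z.not).and (Op.val (Computable.succ.comp f) s))
  refine ⟨_, h, ?_⟩
  rintro o _ rfl n y
  cases n <;> simp [cons, tl]

lemma core {f g m : Prob} {J : (ℕ → ℕ) → (ℕ → ℕ) → ℕ → ℕ} {ta tb k h : ℕ}
    {Wr Rr : (ℕ → ℕ) → (ℕ → ℕ) → Prop} (hab : ta ≠ tb) (hW : Cm Wr) (hR : Cm Rr)
    (hJ : ∀ F : (ℕ → ℕ) → ℕ → ℕ, (Cm fun p q => q = F p) → Cm fun p q => q = J (F p) p)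
    (hJ0 : ∀ s a b, (∀ t < s, a t = 0) → (∀ t < s, b t = 0) → ∀ t < s, J a b t = 0)
    (R1 : ∀ a b, ∃ c, Out k (J a b) c ∧ ∀ r ∈ tot m c, ∃ o, Out h (join (J a b) r) o ∧
      ((o 0 = ta ∧ tl o ∈ tot (hat f) a) ∨ (o 0 = tb ∧ tl o ∈ tot (hat g) b)))
    (R2 : ∀ c, (m c).Nonempty → ∃ w, Wr c w ∧ (g w).Nonempty ∧
      ∀ q ∈ g w, ∃ r ∈ m c, Rr (join c q) r)
    {r0 o0 : ℕ → ℕ} (R3 : Out h (join (fun _ => 0) r0) o0) (R4 : o0 0 = ta) : Red f g := by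
  obtain ⟨k0, e0⟩ := (R3 0 _).2 rfl
  obtain ⟨k1, e1⟩ := (R3 1 _).2 rfl
  obtain ⟨s, s0, s1⟩ : ∃ s, k0 ≤ s ∧ k1 ≤ s := ⟨k0 + k1, by omega, by omega⟩
  obtain ⟨ca, ha⟩ := code (cm_sh s) ((cm_cons (o0 1 + 1)).pre Cm.od)
  have hZ := hJ _ ((cm_mk s ca).pre (cm_sh s))
  have hc := (Cm.out k).pre hZ
  obtain ⟨cb, hb⟩ := code (hc.comp hW) (((((hZ.pre Cm.ev).join (((hc.pre Cm.ev).join Cm.od).comp
    hR)).comp (Cm.out h))).comp (Cm.case (k := 0) ((cm_cons 0).pre (Cm.tl.pre Cm.tl)) cm_inc hab))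
  refine Red.trans (red (cm_mk s cb) (Cm.tl.pre Cm.od) fun p hp => ?_) (hat_le g)
  have A := ha f _ p (cons (o0 1 + 1)) (cd_mk s ca p) (sh_mk ..).symm (by simp)
  have A' : ∀ r ∈ tot (hat f) (mk s ca p), r 0 = o0 1 + 1 ∧ tl r ∈ f p := fun r hr => by
    obtain ⟨q, q1, rfl⟩ := A ▸ hr (A ▸ hp.image _)
    exact ⟨rfl, by rwa [tl_cons]⟩
  obtain ⟨c, c1, c2⟩ := R1 (mk s ca p) (mk s cb p)
  have z : ∀ c t, t < s → mk s c p t = 0 := fun c t ht => by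
    simp [mk, ht, show t < s + 2 by omega]
  have hm : (m c).Nonempty := by
    by_contra hn
    obtain ⟨o, o1, o2⟩ := c2 r0 fun k => absurd k hn
    have e : ∀ j ≤ s, pre (join (fun _ => 0) r0) j =
        pre (join (J (mk s ca p) (mk s cb p)) r0) j := fun j hj => pre_congr fun i hi => by
      simp only [join]
      rw [hJ0 s _ _ (z ca) (z cb) _ (by omega)]
    have f0 := (o1 0 _).1 ⟨k0, e k0 s0 ▸ e0⟩
    have f1 := (o1 1 _).1 ⟨k1, e k1 s1 ▸ e1⟩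
    rcases o2 with ⟨-, u⟩ | ⟨u, -⟩
    · have : o 1 = o0 1 + 1 := (A' _ u).1
      omega
    · exact hab (by rw [← R4, f0, u])
  obtain ⟨w, w1, w2, w3⟩ := R2 c hm
  choose! r r1 r2 using w3
  choose! o o1 o2 using fun q hq => c2 (r q) fun _ => r1 q hq
  have B := hb g (mk s cb p) w
    (fun q => cons (if o q 0 = ta then 0 else o q 1 + 1) (tl (tl (o q)))) (cd_mk ..)
    ⟨c, by rwa [sh_mk], w1⟩ fun q hq => ⟨o q, ⟨_, ⟨_, r q, rfl, ⟨join c q,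
      ⟨c, _, by simpa [sh_mk] using c1, rfl, by simp⟩, r2 q hq⟩, rfl⟩,
      by simpa [sh_mk] using o1 q hq⟩, by
        rcases o2 q hq with ⟨u, -⟩ | ⟨u, -⟩
        · exact Or.inl ⟨u, by simp [u]⟩
        · exact Or.inr ⟨u, by simp [u, hab.symm]⟩⟩
  refine ⟨_, rfl, B ▸ w2.image _, fun v hv => ⟨tl v, by simp, ?_⟩⟩
  induction hn : v 0 using Nat.strong_induction_on generalizing v with
  | _ n ih =>
    obtain ⟨q, hq, rfl⟩ := B ▸ hv
    rw [tl_cons]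
    rcases o2 q hq with ⟨-, u⟩ | ⟨u, u'⟩
    · exact (A' _ u).2
    · refine ih _ ?_ _ (u' ⟨_, hv⟩) rfl
      simp [← hn, cons, u, hab.symm, tl]

/-- For incomparable `f, g` the meet of the jumps does not reduce to the jump of the meet. -/
theorem result (f g jf jg jm : Prob) (hf : IsTJ f jf) (hg : IsTJ g jg)
    (hm : IsTJ (meet f g) jm) (h1 : ¬ Red f g) (h2 : ¬ Red g f) : ¬ Red (meet jf jg) jm := by
  intro h
  obtain ⟨⟨m, ⟨⟨i, j, a⟩, -⟩, b, -⟩, -⟩ := hm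
  obtain ⟨k, l, c⟩ := ((meet_mono (hf.2 _ ⟨hat_le f, le_hat f⟩)
    (hg.2 _ ⟨hat_le g, le_hat g⟩)).trans h).trans b
  have d : ∀ p, ∃ x, Out k p x ∧ ∀ r ∈ tot m x, ∃ o, Out l (join p r) o ∧
      ((o 0 = 0 ∧ tl o ∈ tot (hat f) (ev p)) ∨ (o 0 = 1 ∧ tl o ∈ tot (hat g) (od p))) := fun p => by
    obtain ⟨x, x1, -, x2⟩ := c p ⟨cons 0 (tot_ne (hat f) (ev p)).some, tot_ne _ _, tot_ne _ _,
      Or.inl ⟨rfl, by rw [tl_cons]; exact Set.Nonempty.some_mem _⟩⟩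
    exact ⟨x, x1, fun r hr => (x2 r hr).imp fun _ u => ⟨u.1, u.2.2.2⟩⟩
  have hR := fun t => (Cm.out j).pre (Cm.ev.jn ((cm_cons t).pre Cm.od))
  have j0 : ∀ s (a b : ℕ → ℕ), (∀ t < s, a t = 0) → (∀ t < s, b t = 0) →
      ∀ t < s, join a b t = 0 := fun s a b u v t ht => by
    simp [join, u (t / 2) (by omega), v (t / 2) (by omega)]
  obtain ⟨x, -, x2⟩ := d fun _ => 0
  obtain ⟨o, o1, ⟨o2, -⟩ | ⟨o2, -⟩⟩ := x2 _ (tot_ne m x).some_mem
  · refine h1 (core (J := join) Nat.zero_ne_one ((Cm.out i).comp Cm.od) (hR 1)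
      (fun F hF => hF.jn cm_id) j0 (fun a b => by simpa using d (join a b)) (fun c hc => ?_) o1 o2)
    obtain ⟨y, y1, ⟨-, y2, y3, -⟩, y4⟩ := a c hc
    refine ⟨_, ⟨y, y1, rfl⟩, y3, fun q hq => ?_⟩
    obtain ⟨r, r1, r2⟩ := y4 (cons 1 q) ⟨y2, y3, Or.inr ⟨rfl, by rwa [tl_cons]⟩⟩
    exact ⟨r, r2, by simpa using r1⟩
  · refine h2 (core (J := fun a b => join b a) Nat.one_ne_zero ((Cm.out i).comp Cm.ev) (hR 0)
      (fun F hF => cm_id.jn hF) (fun s a b u v => j0 s b a v u)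
      (fun a b => by simpa [or_comm] using d (join b a)) (fun c hc => ?_) o1 o2)
    obtain ⟨y, y1, ⟨-, y2, y3, -⟩, y4⟩ := a c hc
    refine ⟨_, ⟨y, y1, rfl⟩, y2, fun q hq => ?_⟩
    obtain ⟨r, r1, r2⟩ := y4 (cons 0 q) ⟨y2, y3, Or.inl ⟨rfl, by rwa [tl_cons]⟩⟩
    exact ⟨r, r2, by simpa using r1⟩

/-- The jump exists, so the hypotheses of `result` can be met. -/
theorem exists_tj (f : Prob) : IsTJ f (tot (hat f)) := by
  have rf : ∀ g : Prob, Red g g := fun g =>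
    red cm_id Cm.od fun p hp => ⟨p, rfl, hp, fun q hq => ⟨q, by simp, hq⟩⟩
  refine ⟨⟨_, ⟨hat_le f, le_hat f⟩, rf _, rf _⟩, ?_⟩
  rintro f' ⟨⟨i, j, a⟩, -⟩
  obtain ⟨c, hc⟩ := code ((Cm.out i).pre (cm_sh 0))
    ((Cm.out j).pre (((cm_sh 0).pre Cm.ev).jn Cm.od))
  refine red (cm_mk 0 c) Cm.od fun p _ => ⟨_, rfl, tot_ne _ _, fun q hq => ⟨q, by simp,
    fun hp => ?_⟩⟩
  obtain ⟨x, x1, x2, x3⟩ := a p hp
  choose! F F1 F2 using x3
  have := hc f _ x F (cd_mk 0 c p) (by rwa [sh_mk]) fun q hq => by simpa [sh_mk] using F1 q hq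
  obtain ⟨r, r1, rfl⟩ := this ▸ hq (this ▸ x2.image _)
  exact F2 r r1

end Pool.Agent.Results.MP_1d3aa8_lc.No
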